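import Pool.Agent.Helper97.FS.Stmts

/-! Uniqueness of the densities on the torus. -/

set_option autoImplicit false

namespace Pool.Agent.Helper97.FS

open Finset MeasureTheory Filter Topology UnitAddTorus
open scoped ComplexConjugate ENNReal BoundedContinuousFunction

theorem E4_ptwo (r s : ℝ) : (ENNReal.ofReal r).toReal * s - (ENNReal.ofReal (-r)).toReal * s =
    s * r := by
  rw [ENNReal.toReal_ofReal', ENNReal.toReal_ofReal', ← sub_mul]
  have : max r 0 - max (-r) 0 = r := by
    rcases le_total r 0 with h | h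
    · rw [max_eq_right h, max_eq_left (by linarith)]; ring
    · rw [max_eq_left h, max_eq_right (by linarith)]; ring
  rw [this, mul_comm]

theorem E4_intd {X : Type*} [TopologicalSpace X] [MeasurableSpace X]
    [OpensMeasurableSpace X] (β : Measure X) [IsFiniteMeasure β] (g : X → ℝ)
    (hg : Integrable g β) (φ : X →ᵇ ℝ) :
    (∫ x, φ x ∂(β.withDensity fun x => ENNReal.ofReal (g x))) -
      (∫ x, φ x ∂(β.withDensity fun x => ENNReal.ofReal (-g x))) = ∫ x, φ x * g x ∂β := by
  have hgm : AEMeasurable g β := hg.aestronglyMeasurable.aemeasurable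
  have hgn : AEMeasurable (fun x => ENNReal.ofReal (-g x)) β := hgm.neg.ennreal_ofReal
  rw [integral_withDensity_eq_integral_toReal_smul₀ hgm.ennreal_ofReal
      (ae_of_all _ fun x => ENNReal.ofReal_lt_top),
    integral_withDensity_eq_integral_toReal_smul₀ hgn
      (ae_of_all _ fun x => ENNReal.ofReal_lt_top)]
  have hb : ∀ x, ‖φ x‖ ≤ ‖φ‖ := fun x => φ.norm_coe_le_norm x
  have hm : AEStronglyMeasurable (fun x => φ x) β := φ.continuous.measurable.aestronglyMeasurable
  have hi1 : Integrable (fun x => (ENNReal.ofReal (g x)).toReal) β := by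
    have : (fun x => (ENNReal.ofReal (g x)).toReal) = fun x => max (g x) 0 := by
      funext x; rw [ENNReal.toReal_ofReal']
    rw [this]; exact hg.pos_part
  have hi2 : Integrable (fun x => (ENNReal.ofReal (-g x)).toReal) β := by
    have : (fun x => (ENNReal.ofReal (-g x)).toReal) = fun x => max (-g x) 0 := by
      funext x; rw [ENNReal.toReal_ofReal']
    rw [this]; exact hg.neg_part
  have hj1 : Integrable (fun x => (ENNReal.ofReal (g x)).toReal • φ x) β :=
    hi1.mul_bdd hm (ae_of_all _ hb)
  have hj2 : Integrable (fun x => (ENNReal.ofReal (-g x)).toReal • φ x) β :=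
    hi2.mul_bdd hm (ae_of_all _ hb)
  rw [← integral_sub hj1 hj2]
  refine integral_congr_ae (ae_of_all _ fun x => ?_)
  simp only [smul_eq_mul]
  exact E4_ptwo _ _

theorem E4_real {X : Type*} [TopologicalSpace X] [HasOuterApproxClosed X] [MeasurableSpace X]
    [BorelSpace X] (β ν : Measure X) [IsFiniteMeasure β] [IsFiniteMeasure ν] (g F : X → ℝ)
    (hg : Integrable g β) (hF : Integrable F ν)
    (h : ∀ φ : X →ᵇ ℝ, ∫ x, φ x * g x ∂β = ∫ x, φ x * F x ∂ν)
    (A : Set X) (hA : MeasurableSet A) (hβ : β A = 0) : ∀ᵐ x ∂(ν.restrict A), F x = 0 := by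
  have f1 : IsFiniteMeasure (β.withDensity fun x => ENNReal.ofReal (g x)) :=
    isFiniteMeasure_withDensity_ofReal hg.hasFiniteIntegral
  have f2 : IsFiniteMeasure (β.withDensity fun x => ENNReal.ofReal (-g x)) :=
    isFiniteMeasure_withDensity_ofReal hg.neg.hasFiniteIntegral
  have f3 : IsFiniteMeasure (ν.withDensity fun x => ENNReal.ofReal (F x)) :=
    isFiniteMeasure_withDensity_ofReal hF.hasFiniteIntegral
  have f4 : IsFiniteMeasure (ν.withDensity fun x => ENNReal.ofReal (-F x)) :=
    isFiniteMeasure_withDensity_ofReal hF.neg.hasFiniteIntegral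
  have key : (β.withDensity fun x => ENNReal.ofReal (g x)) +
      (ν.withDensity fun x => ENNReal.ofReal (-F x)) =
      (β.withDensity fun x => ENNReal.ofReal (-g x)) +
      (ν.withDensity fun x => ENNReal.ofReal (F x)) := by
    apply ext_of_forall_integral_eq_of_IsFiniteMeasure
    intro φ
    rw [integral_add_measure (φ.integrable _) (φ.integrable _),
      integral_add_measure (φ.integrable _) (φ.integrable _)]
    have e1 := E4_intd β g hg φ
    have e2 := E4_intd ν F hF φ
    have e3 := h φ
    linarith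
  have hFm : AEMeasurable F ν := hF.aestronglyMeasurable.aemeasurable
  have key2 : (ν.restrict A).withDensity (fun x => ENNReal.ofReal (-F x)) =
      (ν.restrict A).withDensity (fun x => ENNReal.ofReal (F x)) := by
    rw [← restrict_withDensity hA, ← restrict_withDensity hA]
    ext s hs
    rw [Measure.restrict_apply hs, Measure.restrict_apply hs]
    have h0 : β (s ∩ A) = 0 := measure_mono_null Set.inter_subset_right hβ
    have e := congrArg (fun m : Measure X => m (s ∩ A)) key
    simp only [Measure.add_apply] at e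
    rw [(withDensity_absolutelyContinuous β _) h0, (withDensity_absolutelyContinuous β _) h0,
      zero_add, zero_add] at e
    exact e
  have hm1 : AEMeasurable (fun x => ENNReal.ofReal (-F x)) (ν.restrict A) :=
    (hFm.neg.ennreal_ofReal).restrict
  have hm2 : AEMeasurable (fun x => ENNReal.ofReal (F x)) (ν.restrict A) :=
    (hFm.ennreal_ofReal).restrict
  have e := (withDensity_eq_iff_of_sigmaFinite hm1 hm2).1 key2
  filter_upwards [e] with x hx
  rcases lt_trichotomy (F x) 0 with h1 | h1 | h1
  · rw [ENNReal.ofReal_of_nonpos h1.le, ENNReal.ofReal_eq_zero] at hx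
    linarith
  · exact h1
  · rw [eq_comm, ENNReal.ofReal_of_nonpos (by linarith : -F x ≤ 0), ENNReal.ofReal_eq_zero] at hx
    linarith

/-- integration against an integrable function -/
noncomputable def E4_L {n : ℕ} (β : Measure (UnitAddTorus (Fin n)))
    (g : UnitAddTorus (Fin n) → ℂ) (hg : Integrable g β) : C(UnitAddTorus (Fin n), ℂ) →L[ℂ] ℂ :=
  LinearMap.mkContinuous
    { toFun := fun φ => ∫ x, φ x * g x ∂β
      map_add' := by
        intro φ ψ
        have h1 : Integrable (fun x => φ x * g x) β := hg.bdd_mul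
          φ.continuous.measurable.aestronglyMeasurable (ae_of_all _ fun x => φ.norm_coe_le_norm x)
        have h2 : Integrable (fun x => ψ x * g x) β := hg.bdd_mul
          ψ.continuous.measurable.aestronglyMeasurable (ae_of_all _ fun x => ψ.norm_coe_le_norm x)
        rw [← integral_add h1 h2]
        refine integral_congr_ae (ae_of_all _ fun x => ?_)
        simp only [ContinuousMap.add_apply]
        ring
      map_smul' := by
        intro c φ
        simp only [RingHom.id_apply, smul_eq_mul]
        rw [← integral_const_mul]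
        refine integral_congr_ae (ae_of_all _ fun x => ?_)
        simp only [ContinuousMap.smul_apply, smul_eq_mul]
        ring }
    (∫ x, ‖g x‖ ∂β) (by
      intro φ
      change ‖∫ x, φ x * g x ∂β‖ ≤ _
      refine (norm_integral_le_integral_norm _).trans ?_
      rw [mul_comm, ← integral_const_mul]
      refine integral_mono_of_nonneg (ae_of_all _ fun x => norm_nonneg _)
        (hg.norm.const_mul _) (ae_of_all _ fun x => ?_)
      simp only [norm_mul]
      exact mul_le_mul_of_nonneg_right (φ.norm_coe_le_norm x) (norm_nonneg _))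

theorem E4_L_apply {n : ℕ} (β : Measure (UnitAddTorus (Fin n)))
    (g : UnitAddTorus (Fin n) → ℂ) (hg : Integrable g β) (φ : C(UnitAddTorus (Fin n), ℂ)) :
    E4_L β g hg φ = ∫ x, φ x * g x ∂β := rfl

theorem E4_all {n : ℕ} (β ν : Measure (UnitAddTorus (Fin n)))
    (g F : UnitAddTorus (Fin n) → ℂ) (hg : Integrable g β) (hF : Integrable F ν)
    (h : ∀ m, ∫ x, mFourier m x * g x ∂β = ∫ x, mFourier m x * F x ∂ν)
    (φ : C(UnitAddTorus (Fin n), ℂ)) : ∫ x, φ x * g x ∂β = ∫ x, φ x * F x ∂ν := by
  have hle : (Submodule.span ℂ (Set.range (mFourier (d := Fin n)))).topologicalClosure ≤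
      LinearMap.ker (E4_L β g hg - E4_L ν F hF).toLinearMap := by
    apply Submodule.topologicalClosure_minimal
    · rw [Submodule.span_le]
      rintro _ ⟨m, rfl⟩
      change (E4_L β g hg - E4_L ν F hF) (mFourier m) = 0
      rw [_root_.sub_apply, E4_L_apply, E4_L_apply, h m, sub_self]
    · exact (E4_L β g hg - E4_L ν F hF).isClosed_ker
  rw [span_mFourier_closure_eq_top] at hle
  have h2 : (E4_L β g hg - E4_L ν F hF) φ = 0 := hle (Submodule.mem_top : φ ∈ ⊤)
  rw [_root_.sub_apply, E4_L_apply, E4_L_apply, sub_eq_zero] at h2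
  exact h2

theorem st_E4 : ST_E4 := by
  intro n β hβ g F hg hF h hne
  refine Measure.AbsolutelyContinuous.mk fun A hA h0 => ?_
  have hall := E4_all β (tor n) g F hg hF h
  have hmul : ∀ (μ : Measure (UnitAddTorus (Fin n))) (_ : IsFiniteMeasure μ)
      (u : UnitAddTorus (Fin n) → ℂ), Integrable u μ → ∀ φ : UnitAddTorus (Fin n) →ᵇ ℝ,
      Integrable (fun x => ((φ x : ℝ) : ℂ) * u x) μ := by
    intro μ _ u hu φ
    refine hu.bdd_mul (c := ‖φ‖) ?_ (ae_of_all _ fun x => ?_)
    · exact (Complex.continuous_ofReal.comp φ.continuous).measurable.aestronglyMeasurable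
    · rw [Complex.norm_real]; exact φ.norm_coe_le_norm x
  have hC : ∀ φ : UnitAddTorus (Fin n) →ᵇ ℝ,
      ∫ x, ((φ x : ℝ) : ℂ) * g x ∂β = ∫ x, ((φ x : ℝ) : ℂ) * F x ∂(tor n) := fun φ =>
    hall ⟨fun x => ((φ x : ℝ) : ℂ), Complex.continuous_ofReal.comp φ.continuous⟩
  have hre : ∀ φ : UnitAddTorus (Fin n) →ᵇ ℝ,
      ∫ x, φ x * (g x).re ∂β = ∫ x, φ x * (F x).re ∂(tor n) := by
    intro φ
    have e := congrArg Complex.re (hC φ)
    have e1 := integral_re (hmul β hβ g hg φ)
    have e2 := integral_re (hmul (tor n) inferInstance F hF φ)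
    simp only [RCLike.re_eq_complex_re, Complex.re_ofReal_mul] at e1 e2
    rw [e1, e2]; exact e
  have him : ∀ φ : UnitAddTorus (Fin n) →ᵇ ℝ,
      ∫ x, φ x * (g x).im ∂β = ∫ x, φ x * (F x).im ∂(tor n) := by
    intro φ
    have e := congrArg Complex.im (hC φ)
    have e1 := integral_im (hmul β hβ g hg φ)
    have e2 := integral_im (hmul (tor n) inferInstance F hF φ)
    simp only [RCLike.im_eq_complex_im, Complex.im_ofReal_mul] at e1 e2
    rw [e1, e2]; exact e
  have r1 := E4_real β (tor n) (fun x => (g x).re) (fun x => (F x).re) hg.re hF.re hre A hA h0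
  have r2 := E4_real β (tor n) (fun x => (g x).im) (fun x => (F x).im) hg.im hF.im him A hA h0
  have r3 : ∀ᵐ x ∂((tor n).restrict A), F x ≠ 0 := ae_restrict_of_ae hne
  have r4 : ∀ᵐ x ∂((tor n).restrict A), False := by
    filter_upwards [r1, r2, r3] with x x1 x2 x3
    exact x3 (Complex.ext x1 x2)
  rw [ae_iff] at r4
  simp only [not_false_eq_true, Set.ofPred_true, Measure.restrict_apply_univ] at r4
  exact r4

end Pool.Agent.Helper97.FS
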