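import Pool.Agent.Helper97.FS.Stmts

/-! The Jackson kernel on the circle. -/

set_option autoImplicit false

namespace Pool.Agent.Helper97.FS

open Finset MeasureTheory Filter Topology
open scoped ComplexConjugate

theorem JAC_int (m : ℤ) : ∫ ω : AddCircle (1 : ℝ), (fourier m ω : ℂ) ∂AddCircle.haarAddCircle =
    if m = 0 then 1 else 0 := by
  split_ifs with h
  · subst h
    simp
  · exact integral_eq_zero_of_add_right_eq_neg (μ := AddCircle.haarAddCircle)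
      (fourier_add_half_inv_index h (Fact.out : (0 : ℝ) < 1))

theorem JAC_integ {f : AddCircle (1 : ℝ) → ℂ} (hf : Continuous f) :
    Integrable f AddCircle.haarAddCircle :=
  hf.integrable_of_hasCompactSupport (HasCompactSupport.of_compactSpace _)

theorem JAC_integR {f : AddCircle (1 : ℝ) → ℝ} (hf : Continuous f) :
    Integrable f AddCircle.haarAddCircle :=
  hf.integrable_of_hasCompactSupport (HasCompactSupport.of_compactSpace _)

theorem JAC_intsum {ι : Type} (s : Finset ι) (e : ι → ℤ) :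
    ∫ ω : AddCircle (1 : ℝ), (∑ i ∈ s, (fourier (e i) ω : ℂ)) ∂AddCircle.haarAddCircle =
      ∑ i ∈ s, if e i = 0 then (1 : ℂ) else 0 := by
  rw [integral_finsetSum s (fun i _ => JAC_integ (map_continuous (fourier (e i))))]
  exact Finset.sum_congr rfl fun i _ => JAC_int (e i)

theorem JAC_mul {ι κ : Type} (s : Finset ι) (t : Finset κ) (e : ι → ℤ) (e' : κ → ℤ)
    (ω : AddCircle (1 : ℝ)) :
    (∑ i ∈ s, (fourier (e i) ω : ℂ)) * (∑ j ∈ t, (fourier (e' j) ω : ℂ)) =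
      ∑ p ∈ s ×ˢ t, (fourier (e p.1 + e' p.2) ω : ℂ) := by
  rw [Finset.sum_mul_sum, Finset.sum_product]
  refine Finset.sum_congr rfl fun i _ => Finset.sum_congr rfl fun j _ => ?_
  rw [fourier_add]

/-- the Dirichlet sum -/
noncomputable def JAC_D (n : ℕ) (ω : AddCircle (1 : ℝ)) : ℂ := ∑ j ∈ range n, fourier (j : ℤ) ω

theorem JAC_cont (n : ℕ) : Continuous (JAC_D n) :=
  continuous_finsetSum _ fun j _ => map_continuous (fourier (j : ℤ))

theorem JAC_conj (n : ℕ) (ω : AddCircle (1 : ℝ)) :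
    conj (JAC_D n ω) = ∑ j ∈ range n, (fourier (-(j : ℤ)) ω : ℂ) := by
  unfold JAC_D
  rw [map_sum]
  exact Finset.sum_congr rfl fun j _ => (fourier_neg).symm

theorem JAC_sq (n : ℕ) (ω : AddCircle (1 : ℝ)) : ((‖JAC_D n ω‖ ^ 2 : ℝ) : ℂ) =
    ∑ p ∈ range n ×ˢ range n, (fourier ((p.1 : ℤ) + -(p.2 : ℤ)) ω : ℂ) := by
  rw [← JAC_mul (range n) (range n) (fun j : ℕ => (j : ℤ)) (fun j : ℕ => -(j : ℤ)), ← JAC_conj]
  change _ = JAC_D n ω * conj (JAC_D n ω)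
  rw [Complex.mul_conj, Complex.normSq_eq_norm_sq]

theorem JAC_four (n : ℕ) (ω : AddCircle (1 : ℝ)) : ((‖JAC_D n ω‖ ^ 4 : ℝ) : ℂ) =
    ∑ p ∈ (range n ×ˢ range n) ×ˢ (range n ×ˢ range n),
      (fourier (((p.1.1 : ℤ) + -(p.1.2 : ℤ)) + ((p.2.1 : ℤ) + -(p.2.2 : ℤ))) ω : ℂ) := by
  rw [← JAC_mul (range n ×ˢ range n) (range n ×ˢ range n)
    (fun p : ℕ × ℕ => (p.1 : ℤ) + -(p.2 : ℤ)) (fun p : ℕ × ℕ => (p.1 : ℤ) + -(p.2 : ℤ)), ← JAC_sq,
    ← Complex.ofReal_mul]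
  congr 1
  ring

theorem JAC_tri (n : ℕ) (ω : AddCircle (1 : ℝ)) : JAC_D n ω * JAC_D n ω * conj (JAC_D (2 * n) ω) =
    ∑ p ∈ (range n ×ˢ range n) ×ˢ range (2 * n),
      (fourier (((p.1.1 : ℤ) + (p.1.2 : ℤ)) + -(p.2 : ℤ)) ω : ℂ) := by
  rw [← JAC_mul (range n ×ˢ range n) (range (2 * n))
    (fun p : ℕ × ℕ => (p.1 : ℤ) + (p.2 : ℤ)) (fun p : ℕ => -(p : ℤ)), ← JAC_conj, ← JAC_mul]
  rfl

theorem JAC_int2 (n : ℕ) : ∫ ω : AddCircle (1 : ℝ), ‖JAC_D n ω‖ ^ 2 ∂AddCircle.haarAddCircle = n := by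
  have h1 : ((∫ ω : AddCircle (1 : ℝ), ‖JAC_D n ω‖ ^ 2 ∂AddCircle.haarAddCircle : ℝ) : ℂ) =
      (n : ℂ) := by
    rw [← integral_complex_ofReal]
    have : (fun ω : AddCircle (1 : ℝ) => ((‖JAC_D n ω‖ ^ 2 : ℝ) : ℂ)) = fun ω =>
        ∑ p ∈ range n ×ˢ range n, (fourier ((p.1 : ℤ) + -(p.2 : ℤ)) ω : ℂ) :=
      funext fun ω => JAC_sq n ω
    rw [this, JAC_intsum, Finset.sum_product]
    have h2 : ∀ i ∈ range n, ∑ j ∈ range n, (if (i : ℤ) + -(j : ℤ) = 0 then (1 : ℂ) else 0) = 1 := by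
      intro i hi
      have : ∀ j ∈ range n, (if (i : ℤ) + -(j : ℤ) = 0 then (1 : ℂ) else 0) =
          if i = j then (1 : ℂ) else 0 := by
        intro j _
        by_cases h : i = j
        · subst h; simp
        · rw [if_neg h, if_neg (by omega)]
      rw [Finset.sum_congr rfl this, Finset.sum_ite_eq, if_pos hi]
    rw [Finset.sum_congr rfl h2]
    simp
  exact_mod_cast h1

theorem JAC_int3 (n : ℕ) : ∫ ω : AddCircle (1 : ℝ), JAC_D n ω * JAC_D n ω * conj (JAC_D (2 * n) ω)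
    ∂AddCircle.haarAddCircle = (n : ℂ) ^ 2 := by
  have : (fun ω : AddCircle (1 : ℝ) => JAC_D n ω * JAC_D n ω * conj (JAC_D (2 * n) ω)) = fun ω =>
      ∑ p ∈ (range n ×ˢ range n) ×ˢ range (2 * n),
        (fourier (((p.1.1 : ℤ) + (p.1.2 : ℤ)) + -(p.2 : ℤ)) ω : ℂ) := funext fun ω => JAC_tri n ω
  rw [this, JAC_intsum, Finset.sum_product]
  have h2 : ∀ q ∈ range n ×ˢ range n, ∑ k ∈ range (2 * n),
      (if ((q.1 : ℤ) + (q.2 : ℤ)) + -(k : ℤ) = 0 then (1 : ℂ) else 0) = 1 := by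
    intro q hq
    rw [Finset.mem_product, Finset.mem_range, Finset.mem_range] at hq
    have : ∀ k ∈ range (2 * n), (if ((q.1 : ℤ) + (q.2 : ℤ)) + -(k : ℤ) = 0 then (1 : ℂ) else 0) =
        if q.1 + q.2 = k then (1 : ℂ) else 0 := by
      intro k _
      by_cases h : q.1 + q.2 = k
      · subst h; simp
      · rw [if_neg h, if_neg (by omega)]
    rw [Finset.sum_congr rfl this, Finset.sum_ite_eq, if_pos (Finset.mem_range.2 (by omega))]
  rw [Finset.sum_congr rfl h2]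
  simp [sq]

/-- the normalising constant -/
noncomputable def JAC_c (n : ℕ) : ℝ :=
  ∫ ω : AddCircle (1 : ℝ), ‖JAC_D n ω‖ ^ 4 ∂AddCircle.haarAddCircle

theorem JAC_low (n : ℕ) (hn : 1 ≤ n) : (n : ℝ) ^ 3 / 2 ≤ JAC_c n := by
  have hn0 : (0 : ℝ) < n := by exact_mod_cast hn
  have c1 : Continuous fun ω : AddCircle (1 : ℝ) => ‖JAC_D n ω‖ ^ 4 := (JAC_cont n).norm.pow 4
  have c2 : Continuous fun ω : AddCircle (1 : ℝ) => ‖JAC_D (2 * n) ω‖ ^ 2 :=
    (JAC_cont (2 * n)).norm.pow 2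
  have c3 : Continuous fun ω : AddCircle (1 : ℝ) =>
      JAC_D n ω * JAC_D n ω * conj (JAC_D (2 * n) ω) :=
    ((JAC_cont n).mul (JAC_cont n)).mul (Complex.continuous_conj.comp (JAC_cont (2 * n)))
  have e1 : ∫ ω : AddCircle (1 : ℝ), (JAC_D n ω * JAC_D n ω * conj (JAC_D (2 * n) ω)).re
      ∂AddCircle.haarAddCircle = (n : ℝ) ^ 2 := by
    have := integral_re (JAC_integ c3)
    simp only [RCLike.re_eq_complex_re] at this
    rw [this, JAC_int3]
    have : ((n : ℂ) ^ 2) = (((n : ℝ) ^ 2 : ℝ) : ℂ) := by push_cast; ring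
    rw [this, Complex.ofReal_re]
  have e2 : ∫ ω : AddCircle (1 : ℝ), (JAC_D n ω * JAC_D n ω * conj (JAC_D (2 * n) ω)).re
      ∂AddCircle.haarAddCircle ≤ ∫ ω : AddCircle (1 : ℝ), ((1 / (n : ℝ)) * ‖JAC_D n ω‖ ^ 4 +
        ((n : ℝ) / 4) * ‖JAC_D (2 * n) ω‖ ^ 2) ∂AddCircle.haarAddCircle := by
    apply integral_mono
    · exact JAC_integR (Complex.continuous_re.comp c3)
    · exact JAC_integR ((c1.const_mul _).add (c2.const_mul _))
    · intro ω
      simp only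
      have h1 := Complex.re_le_norm (JAC_D n ω * JAC_D n ω * conj (JAC_D (2 * n) ω))
      rw [norm_mul, norm_mul, RCLike.norm_conj] at h1
      refine h1.trans ?_
      set a := ‖JAC_D n ω‖
      set b := ‖JAC_D (2 * n) ω‖
      have h2 : (1 / (n : ℝ)) * a ^ 4 + (n : ℝ) / 4 * b ^ 2 - a * a * b =
          (1 / (n : ℝ)) * (a ^ 2 - (n : ℝ) / 2 * b) ^ 2 := by
        field_simp
        ring
      have h3 : 0 ≤ (1 / (n : ℝ)) * (a ^ 2 - (n : ℝ) / 2 * b) ^ 2 := by positivity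
      linarith
  rw [e1, integral_add (JAC_integR (c1.const_mul _)) (JAC_integR (c2.const_mul _)),
    integral_const_mul, integral_const_mul, JAC_int2] at e2
  change _ ≤ 1 / (n : ℝ) * JAC_c n + _ at e2
  push_cast at e2
  have e3 : (n : ℝ) ^ 2 / 2 ≤ 1 / (n : ℝ) * JAC_c n := by nlinarith
  have e4 := mul_le_mul_of_nonneg_left e3 hn0.le
  rw [← mul_assoc, mul_one_div_cancel hn0.ne', one_mul] at e4
  nlinarith

theorem JAC_geom (n : ℕ) (ω : AddCircle (1 : ℝ)) :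
    ‖JAC_D n ω‖ ^ 2 * ‖(fourier 1 ω : ℂ) - 1‖ ^ 2 ≤ 4 := by
  have h1 : JAC_D n ω * ((fourier 1 ω : ℂ) - 1) = (fourier (n : ℤ) ω : ℂ) - 1 := by
    unfold JAC_D
    induction n with
    | zero => simp
    | succ k ih =>
      rw [Finset.sum_range_succ, add_mul, ih]
      have : (fourier ((k + 1 : ℕ) : ℤ) ω : ℂ) = fourier (k : ℤ) ω * fourier 1 ω := by
        push_cast
        rw [fourier_add]
      rw [this]; ring
  rw [← mul_pow, ← norm_mul, h1]
  have h2 : ‖(fourier (n : ℤ) ω : ℂ) - 1‖ ≤ 2 := by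
    refine (norm_sub_le _ _).trans ?_
    rw [fourier_apply, Circle.norm_coe, norm_one]
    norm_num
  nlinarith [norm_nonneg ((fourier (n : ℤ) ω : ℂ) - 1)]

theorem JAC_tp {ι : Type} (s : Finset ι) (e : ι → ℤ) (a : ℂ) (N : ℕ)
    (he : ∀ i ∈ s, -(N : ℤ) ≤ e i ∧ e i ≤ N) :
    ∃ c : ℤ → ℂ, ∀ ω : AddCircle (1 : ℝ), a * ∑ i ∈ s, (fourier (e i) ω : ℂ) = tp N c ω := by
  refine ⟨fun j => a * ∑ i ∈ s with e i = j, 1, fun ω => ?_⟩
  unfold tp
  have hm : ∀ i ∈ s, e i ∈ Icc (-(N : ℤ)) N := fun i hi => Finset.mem_Icc.2 (he i hi)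
  rw [← Finset.sum_fiberwise_of_maps_to hm, Finset.mul_sum]
  refine Finset.sum_congr rfl fun j _ => ?_
  rw [mul_assoc, Finset.sum_mul]
  congr 1
  refine Finset.sum_congr rfl fun i hi => ?_
  rw [(Finset.mem_filter.1 hi).2, one_mul]

theorem st_JAC : ST_JAC := by
  refine ⟨fun n ω => ‖JAC_D n ω‖ ^ 4 / JAC_c n, ?_, ?_, ?_, ?_, ?_⟩
  · intro n
    exact ((JAC_cont n).norm.pow 4).div_const _
  · intro n ω
    have : 0 ≤ JAC_c n := integral_nonneg fun ω => by positivity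
    positivity
  · intro n hn
    have h := JAC_low n hn
    have hn0 : (0 : ℝ) < n := by exact_mod_cast hn
    have hc : 0 < JAC_c n := lt_of_lt_of_le (by positivity) h
    rw [integral_div]
    exact div_self hc.ne'
  · intro n
    obtain ⟨c, hc⟩ := JAC_tp ((range n ×ˢ range n) ×ˢ (range n ×ˢ range n))
      (fun p => ((p.1.1 : ℤ) + -(p.1.2 : ℤ)) + ((p.2.1 : ℤ) + -(p.2.2 : ℤ)))
      ((JAC_c n : ℝ) : ℂ)⁻¹ (2 * n) (by
        intro p hp
        simp only [Finset.mem_product, Finset.mem_range] at hp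
        push_cast
        constructor <;> omega)
    refine ⟨c, fun ω => ?_⟩
    rw [← hc ω, ← JAC_four, Complex.ofReal_div, div_eq_mul_inv, mul_comm]
  · intro n hn
    have h := JAC_low n hn
    have hn0 : (0 : ℝ) < n := by exact_mod_cast hn
    have hc : 0 < JAC_c n := lt_of_lt_of_le (by positivity) h
    have cz : Continuous fun ω : AddCircle (1 : ℝ) => ‖(fourier 1 ω : ℂ) - 1‖ ^ 2 :=
      ((map_continuous (fourier 1)).sub continuous_const).norm.pow 2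
    have e1 : ∫ ω : AddCircle (1 : ℝ), ‖JAC_D n ω‖ ^ 4 / JAC_c n * ‖(fourier 1 ω : ℂ) - 1‖ ^ 2
        ∂AddCircle.haarAddCircle ≤ ∫ ω : AddCircle (1 : ℝ), (4 / JAC_c n) * ‖JAC_D n ω‖ ^ 2
          ∂AddCircle.haarAddCircle := by
      apply integral_mono
      · exact JAC_integR ((((JAC_cont n).norm.pow 4).div_const _).mul cz)
      · exact JAC_integR (((JAC_cont n).norm.pow 2).const_mul _)
      · intro ω
        simp only
        have h2 := JAC_geom n ω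
        have h3 : ‖JAC_D n ω‖ ^ 4 / JAC_c n * ‖(fourier 1 ω : ℂ) - 1‖ ^ 2 =
            (‖JAC_D n ω‖ ^ 2 / JAC_c n) * (‖JAC_D n ω‖ ^ 2 * ‖(fourier 1 ω : ℂ) - 1‖ ^ 2) := by
          ring
        rw [h3]
        calc (‖JAC_D n ω‖ ^ 2 / JAC_c n) * (‖JAC_D n ω‖ ^ 2 * ‖(fourier 1 ω : ℂ) - 1‖ ^ 2)
            ≤ (‖JAC_D n ω‖ ^ 2 / JAC_c n) * 4 :=
              mul_le_mul_of_nonneg_left h2 (by positivity)
          _ = 4 / JAC_c n * ‖JAC_D n ω‖ ^ 2 := by ring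
    refine e1.trans ?_
    rw [integral_const_mul, JAC_int2]
    rw [div_mul_eq_mul_div, div_le_div_iff₀ hc (by positivity)]
    nlinarith [mul_le_mul_of_nonneg_left h (by norm_num : (0 : ℝ) ≤ 8)]

end Pool.Agent.Helper97.FS
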